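import Mathlib

/-!
A topologically mixing subshift over `ℤ` that is not surjunctive.

The alphabet is `Bool × Bool × Bool`: a configuration is a triple `(a, b, c)` of subsets of `ℤ`.
The subshift `X` consists of the configurations with no `c` at `j`, `b` at `j + m`, `a` at
`j + 2 m` for `m ≥ 1`.  The cellular automaton keeps `a`, moves `b` one step to the right and
`c` two steps to the right.
-/

namespace Pool.Agent.Results.MP_451208_an.MixingNotSurjunctive

/-- The shift `σ(x)_n = x_{n+1}` on `A^ℤ`. -/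
def shift {A : Type} (x : ℤ → A) : ℤ → A := fun n => x (n + 1)

/-- A subshift: a closed subset `X` of `A^ℤ` with `σ(X) = X`. -/
def IsSubshift {A : Type} [TopologicalSpace A] (X : Set (ℤ → A)) : Prop :=
  IsClosed X ∧ shift '' X = X

/-- Topological mixing of `X`: for all nonempty (relatively) open subsets `X ∩ U`, `X ∩ V` of `X`
there is `N` such that `σ^n(X ∩ U)` meets `X ∩ V` for all `n ≥ N`. -/
def IsTopologicallyMixing {A : Type} [TopologicalSpace A] (X : Set (ℤ → A)) : Prop :=
  ∀ U V : Set (ℤ → A), IsOpen U → IsOpen V → (X ∩ U).Nonempty → (X ∩ V).Nonempty →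
    ∃ N : ℕ, ∀ n : ℕ, N ≤ n → ((shift^[n] '' (X ∩ U)) ∩ (X ∩ V)).Nonempty

/-- A cellular automaton on `X`: a continuous map `τ : X → X` with `τ ∘ σ = σ ∘ τ`
(written as the restriction to `X` of a map of the full shift). -/
def IsCellularAutomaton {A : Type} [TopologicalSpace A] (X : Set (ℤ → A))
    (τ : (ℤ → A) → (ℤ → A)) : Prop :=
  Set.MapsTo τ X X ∧ ContinuousOn τ X ∧ ∀ x ∈ X, τ (shift x) = shift (τ x)

/-- `X` is surjunctive: every injective cellular automaton `X → X` is surjective. -/
def IsSurjunctive {A : Type} [TopologicalSpace A] (X : Set (ℤ → A)) : Prop :=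
  ∀ τ : (ℤ → A) → (ℤ → A), IsCellularAutomaton X τ → Set.InjOn τ X → Set.SurjOn τ X X

/-- The alphabet: three bits. -/
abbrev Alph : Type := Bool × Bool × Bool

/-- The subshift of the counterexample. -/
def X0 : Set (ℤ → Alph) :=
  {x | ∀ j m : ℤ, 1 ≤ m →
    ¬ ((x j).2.2 = true ∧ (x (j + m)).2.1 = true ∧ (x (j + 2 * m)).1 = true)}

/-- The cellular automaton of the counterexample. -/
def tau (x : ℤ → Alph) : ℤ → Alph := fun n => ((x n).1, (x (n - 1)).2.1, (x (n - 2)).2.2)

lemma isClosed_X0 : IsClosed X0 := by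
  have h : X0 = ⋂ (j : ℤ), ⋂ (m : ℤ), ⋂ (_ : 1 ≤ m),
      {x : ℤ → Alph | ¬ ((x j).2.2 = true ∧ (x (j + m)).2.1 = true ∧
        (x (j + 2 * m)).1 = true)} := by
    ext x
    simp [X0]
  rw [h]
  refine isClosed_iInter fun j => isClosed_iInter fun m => isClosed_iInter fun _ => ?_
  have hc : Continuous (fun x : ℤ → Alph => (x j, x (j + m), x (j + 2 * m))) := by fun_prop
  have : {x : ℤ → Alph | ¬ ((x j).2.2 = true ∧ (x (j + m)).2.1 = true ∧
        (x (j + 2 * m)).1 = true)} =
      (fun x : ℤ → Alph => (x j, x (j + m), x (j + 2 * m))) ⁻¹'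
        {t | ¬ (t.1.2.2 = true ∧ t.2.1.2.1 = true ∧ t.2.2.1 = true)} := rfl
  rw [this]
  exact (isClosed_discrete _).preimage hc

lemma shift_mem {x : ℤ → Alph} (hx : x ∈ X0) : shift x ∈ X0 := by
  intro j m hm h
  refine hx (j + 1) m hm ?_
  simp only [shift] at h
  have e1 : j + m + 1 = j + 1 + m := by ring
  have e2 : j + 2 * m + 1 = j + 1 + 2 * m := by ring
  rw [e1, e2] at h
  exact h

lemma shift_iterate_apply (n : ℕ) (x : ℤ → Alph) (i : ℤ) : (shift^[n] x) i = x (i + n) := by
  induction n generalizing x i with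
  | zero => simp
  | succ n ih =>
    rw [Function.iterate_succ_apply, ih]
    simp only [shift]
    congr 1
    push_cast
    ring

lemma shift_iterate_mem (n : ℕ) {x : ℤ → Alph} (hx : x ∈ X0) : shift^[n] x ∈ X0 := by
  induction n generalizing x with
  | zero => simpa using hx
  | succ n ih =>
    rw [Function.iterate_succ_apply]
    exact ih (shift_mem hx)

lemma isSubshift_X0 : IsSubshift X0 := by
  refine ⟨isClosed_X0, Set.Subset.antisymm ?_ ?_⟩
  · rintro _ ⟨x, hx, rfl⟩
    exact shift_mem hx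
  · intro x hx
    refine ⟨fun n => x (n - 1), ?_, ?_⟩
    · intro j m hm h
      refine hx (j - 1) m hm ?_
      have e1 : j + m - 1 = j - 1 + m := by ring
      have e2 : j + 2 * m - 1 = j - 1 + 2 * m := by ring
      simp only [e1, e2] at h
      exact h
    · funext n
      simp [shift]

/-- Basic open sets of `A^ℤ`. -/
lemma exists_radius {U : Set (ℤ → Alph)} (hU : IsOpen U) {x : ℤ → Alph} (hx : x ∈ U) :
    ∃ r : ℕ, ∀ z : ℤ → Alph, (∀ i : ℤ, -(r : ℤ) ≤ i → i ≤ r → z i = x i) → z ∈ U := by
  rw [isOpen_pi_iff] at hU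
  obtain ⟨I, u, hu, hsub⟩ := hU x hx
  refine ⟨I.sup Int.natAbs, fun z hz => hsub ?_⟩
  intro i hi
  have hle : i.natAbs ≤ I.sup Int.natAbs := Finset.le_sup (f := Int.natAbs) hi
  have : z i = x i := hz i (by omega) (by omega)
  rw [this]
  exact (hu i hi).2

lemma isTopologicallyMixing_X0 : IsTopologicallyMixing X0 := by
  intro U V hU hV ⟨x, hxX, hxU⟩ ⟨y, hyX, hyV⟩
  obtain ⟨r, hr⟩ := exists_radius hU hxU
  obtain ⟨s, hs⟩ := exists_radius hV hyV
  refine ⟨4 * (r + s) + 2, fun n hn => ?_⟩
  set z : ℤ → Alph := fun i => if -(r : ℤ) ≤ i ∧ i ≤ r then x i else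
    if -(s : ℤ) ≤ i - n ∧ i - n ≤ s then y (i - n) else (false, false, false) with hz
  have hzX : z ∈ X0 := by
    intro j m hm ⟨h1, h2, h3⟩
    simp only [hz] at h1 h2 h3
    by_cases c1 : -(r : ℤ) ≤ j ∧ j ≤ r
    · rw [if_pos c1] at h1
      by_cases c2 : -(r : ℤ) ≤ j + m ∧ j + m ≤ r
      · rw [if_pos c2] at h2
        by_cases c3 : -(r : ℤ) ≤ j + 2 * m ∧ j + 2 * m ≤ r
        · rw [if_pos c3] at h3
          exact hxX j m hm ⟨h1, h2, h3⟩
        · rw [if_neg c3] at h3
          by_cases c4 : -(s : ℤ) ≤ j + 2 * m - n ∧ j + 2 * m - n ≤ s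
          · omega
          · rw [if_neg c4] at h3
            simp at h3
      · rw [if_neg c2] at h2
        by_cases c4 : -(s : ℤ) ≤ j + m - n ∧ j + m - n ≤ s
        · by_cases c3 : -(r : ℤ) ≤ j + 2 * m ∧ j + 2 * m ≤ r
          · omega
          · rw [if_neg c3] at h3
            by_cases c5 : -(s : ℤ) ≤ j + 2 * m - n ∧ j + 2 * m - n ≤ s
            · omega
            · rw [if_neg c5] at h3
              simp at h3
        · rw [if_neg c4] at h2
          simp at h2
    · rw [if_neg c1] at h1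
      by_cases c2 : -(s : ℤ) ≤ j - n ∧ j - n ≤ s
      · rw [if_pos c2] at h1
        have c3 : ¬ (-(r : ℤ) ≤ j + m ∧ j + m ≤ r) := by omega
        have c4 : ¬ (-(r : ℤ) ≤ j + 2 * m ∧ j + 2 * m ≤ r) := by omega
        rw [if_neg c3] at h2
        rw [if_neg c4] at h3
        by_cases c5 : -(s : ℤ) ≤ j + m - n ∧ j + m - n ≤ s
        · rw [if_pos c5] at h2
          by_cases c6 : -(s : ℤ) ≤ j + 2 * m - n ∧ j + 2 * m - n ≤ s
          · rw [if_pos c6] at h3
            refine hyX (j - n) m hm ⟨h1, ?_, ?_⟩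
            · have e : j - n + m = j + m - n := by ring
              rw [e]; exact h2
            · have e : j - n + 2 * m = j + 2 * m - n := by ring
              rw [e]; exact h3
          · rw [if_neg c6] at h3
            simp at h3
        · rw [if_neg c5] at h2
          simp at h2
      · rw [if_neg c2] at h1
        simp at h1
  refine ⟨shift^[n] z, ⟨z, ⟨hzX, ?_⟩, rfl⟩, shift_iterate_mem n hzX, ?_⟩
  · apply hr
    intro i hi1 hi2
    simp only [hz]
    rw [if_pos ⟨hi1, hi2⟩]
  · apply hs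
    intro i hi1 hi2
    rw [shift_iterate_apply]
    simp only [hz]
    rw [if_neg (by omega), if_pos (by omega)]
    congr 1
    ring

lemma isCellularAutomaton_tau : IsCellularAutomaton X0 tau := by
  refine ⟨?_, ?_, ?_⟩
  · intro x hx j m hm ⟨h1, h2, h3⟩
    simp only [tau] at h1 h2 h3
    refine hx (j - 2) (m + 1) (by omega) ⟨h1, ?_, ?_⟩
    · have e : j - 2 + (m + 1) = j + m - 1 := by ring
      rw [e]; exact h2
    · have e : j - 2 + 2 * (m + 1) = j + 2 * m := by ring
      rw [e]; exact h3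
  · apply Continuous.continuousOn
    unfold tau
    fun_prop
  · intro x _
    funext n
    simp only [tau, shift]
    have e1 : n - 1 + 1 = n + 1 - 1 := by ring
    have e2 : n - 2 + 1 = n + 1 - 2 := by ring
    rw [e1, e2]

lemma injective_tau : Function.Injective tau := by
  intro x y h
  funext n
  have h0 := congrFun h n
  have h1 := congrFun h (n + 1)
  have h2 := congrFun h (n + 2)
  simp only [tau, Prod.mk.injEq, add_sub_cancel_right] at h0 h1 h2
  exact Prod.ext h0.1 (Prod.ext h1.2.1 h2.2.2)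

lemma not_isSurjunctive_X0 : ¬ IsSurjunctive X0 := by
  intro h
  have hs := h tau isCellularAutomaton_tau injective_tau.injOn
  have hy : (fun n : ℤ => if n = 0 then ((true, true, true) : Alph) else (false, false, false))
      ∈ X0 := by
    intro j m hm ⟨h1, h2, _⟩
    by_cases c1 : j = 0
    · by_cases c2 : j + m = 0
      · omega
      · simp [c2] at h2
    · simp [c1] at h1
  obtain ⟨x, hxX, hx⟩ := hs hy
  have h0 := congrFun hx 0
  simp [tau] at h0
  refine hxX (-2) 1 le_rfl ⟨?_, ?_, ?_⟩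
  · exact h0.2.2
  · norm_num
    exact h0.2.1
  · norm_num
    exact h0.1

/-- There is a topologically mixing subshift over `ℤ` (on a finite discrete alphabet) that is not
surjunctive. -/
theorem result : ∃ (A : Type) (_ : Finite A) (_ : TopologicalSpace A) (_ : DiscreteTopology A)
    (X : Set (ℤ → A)), IsSubshift X ∧ IsTopologicallyMixing X ∧ ¬ IsSurjunctive X :=
  ⟨Alph, inferInstance, inferInstance, inferInstance, X0, isSubshift_X0,
    isTopologicallyMixing_X0, not_isSurjunctive_X0⟩

end Pool.Agent.Results.MP_451208_an.MixingNotSurjunctive
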